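import Pool.Agent.Lib_helper87.HS.Main

/-!
Hajnal-Szemeredi with prescribed class sizes: a graph on `N` vertices with maximum degree `Δ` has a
proper colouring with exactly `n i` vertices of colour `i`, for every vector `n` with sum `N` all of
whose entries are at most `⌊N/(Δ+1)⌋`.

The proof follows Kierstead and Kostochka's proof of the Hajnal-Szemeredi theorem.  The statement
is proved for all graphs by induction on the number of edges, for an arbitrary number of colours and
arbitrary sizes `n i ≤ s` with `(Δ+1) s ≤ N`.  In the inductive step one gets a proper colouring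
with one vertex missing in a class `i` and one too many in a class `j`.  If `j` is not accessible
from `i`, one looks at the accessible classes `A`, chooses a set `A'` of `t` terminal classes cut off
by one class, and finds a solo vertex `z` in `A'` which either moves inside `A`, or has two
nonadjacent solo neighbours `y₁, y₂` outside.  The vertices of nonaccessible colour other than `y₁`
are recoloured by induction with *their own prescribed sizes*; only the bound `n i ≤ s` is used in
the two counting arguments.
-/

namespace Pool.Agent.Results.MP_2870db_co.PrescribedSizes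

open Finset Pool.Agent.Lib_helper87

/-- Every finite graph `G` has an `n`-colouring for every vector `n : Fin q → ℕ` with sum `|V|` and
all entries at most `⌊|V|/(Δ(G)+1)⌋`. -/
theorem result {V : Type*} [Fintype V] (G : SimpleGraph V) [DecidableRel G.Adj] (q : ℕ)
    (n : Fin q → ℕ) (hsum : ∑ i, n i = Fintype.card V)
    (hn : ∀ i, n i ≤ Fintype.card V / (G.maxDegree + 1)) :
    ∃ σ : G.Coloring (Fin q), ∀ i, {v : V | σ v = i}.ncard = n i := by
  rcases Nat.eq_zero_or_pos q with hq | hq
  · subst hq
    rw [Fin.sum_univ_zero] at hsum
    have hV : IsEmpty V := Fintype.card_eq_zero_iff.1 hsum.symm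
    exact ⟨SimpleGraph.Coloring.mk (fun v => isEmptyElim v) (fun {v} => isEmptyElim v),
      fun i => Fin.elim0 i⟩
  · have : Nonempty (Fin q) := ⟨⟨0, hq⟩⟩
    have hyp : HS.Hyp G.Adj (univ : Finset V) (univ : Finset (Fin q)) n G.maxDegree
        (Fintype.card V / (G.maxDegree + 1)) := by
      refine ⟨?_, fun i _ => hn i, by rw [hsum, Finset.card_univ], ?_⟩
      · intro u _
        refine le_trans (Finset.card_le_card ?_) (G.degree_le_maxDegree u)
        intro v hv
        rw [SimpleGraph.mem_neighborFinset]
        simp only [Finset.mem_filter] at hv
        exact hv.2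
      · rw [Finset.card_univ]
        exact Nat.mul_div_le _ _
    obtain ⟨f, -, hfp, hfn⟩ := HS.main n _ _ G.Adj (fun _ _ h => h.symm)
      (fun x h => G.loopless.irrefl x h) univ univ G.maxDegree rfl hyp
    refine ⟨SimpleGraph.Coloring.mk f (fun {u v} huv => hfp u (mem_univ _) v (mem_univ _) huv),
      fun i => ?_⟩
    rw [← hfn i (mem_univ _), ← Set.ncard_coe_finset]
    congr 1
    ext v
    rw [Finset.mem_coe, HS.mem_cls]
    constructor
    · intro h
      exact ⟨mem_univ _, h⟩
    · intro h
      exact h.2

end Pool.Agent.Results.MP_2870db_co.PrescribedSizes
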